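import Pool.Agent.Helper35.HS3.GoalsB

/-!
# Project HS3, FLX: the mass of `Δ u`
-/

namespace Pool.Agent.Helper9.HS3.FLX

open MeasureTheory Set Filter Topology Metric
open scoped ContDiff
open Pool.Agent.Helper35.HS3

section cut

variable {χ : E → ℝ} {r : ℝ}

theorem pd_zero_off (h : ∀ x, r ≤ ‖x‖ → χ x = 0) {x : E} (hx : r < ‖x‖) (i : Fin 3) :
    pd i χ x = 0 := by
  have e : χ =ᶠ[𝓝 x] fun _ => 0 := by
    filter_upwards [(isOpen_lt continuous_const continuous_norm).mem_nhds hx] with y hy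
    exact h y (le_of_lt hy)
  rw [pd_congr e]
  simp

theorem pdpd_zero_off (h : ∀ x, r ≤ ‖x‖ → χ x = 0) {x : E} (hx : r < ‖x‖) (i j : Fin 3) :
    pd j (pd i χ) x = 0 := by
  have e : pd i χ =ᶠ[𝓝 x] fun _ => 0 := by
    filter_upwards [(isOpen_lt continuous_const continuous_norm).mem_nhds hx] with y hy
    exact pd_zero_off h hy i
  rw [pd_congr e]
  simp

theorem lap_zero_off (h : ∀ x, r ≤ ‖x‖ → χ x = 0) {x : E} (hx : r < ‖x‖) : lap χ x = 0 := by
  unfold lap
  exact Finset.sum_eq_zero fun i _ => pdpd_zero_off h hx i i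

theorem abs_lap_le {c : ℝ} {x : E} (h : ∀ i j, |pd j (pd i χ) x| ≤ c) : |lap χ x| ≤ 3 * c := by
  unfold lap
  refine (Finset.abs_sum_le_sum_abs _ _).trans ?_
  refine (Finset.sum_le_sum fun i _ => h i i).trans ?_
  simp

end cut

theorem part1 {f : ℝ → ℝ} {a A K : ℝ} {u : E → ℝ} (hf : Nl f a A K) (hs : Sl f u) {C C₁ R : ℝ}
    (hC : 0 < C) (hu : ∀ x, |u x| ≤ C * (1 + ‖x‖)) (hC1 : 0 < C₁) (hR : 1 ≤ R) {χ : E → ℝ}
    (h1 : ContDiff ℝ 2 χ) (h2 : HasCompactSupport χ) (h3 : ∀ x, 0 ≤ χ x ∧ χ x ≤ 1)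
    (h4 : ∀ x, ‖x‖ ≤ R → χ x = 1) (h5 : ∀ x, 2 * R ≤ ‖x‖ → χ x = 0)
    (h7 : ∀ x i j, |pd j (pd i χ) x| ≤ C₁ / R ^ 2) :
    ∫ x in ball (0 : E) R, f (u x) ≤ (324 * C * C₁ * v1) * R ^ 2 := by
  have hR0 : 0 < R := by linarith
  have hfu : Continuous fun x => f (u x) := hf.cont.comp hs.smooth.continuous
  have g := green2 h1 h2 hs.smooth
  simp_rw [hs.eq] at g
  have s1 : ∫ x in ball (0 : E) R, f (u x) ≤ ∫ x, χ x * f (u x) := by
    rw [← integral_indicator measurableSet_ball]
    refine integral_mono ?_ ?_ fun x => ?_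
    · rw [integrable_indicator_iff measurableSet_ball]
      exact integrableOn_ball hfu 0 R
    · exact (h1.continuous.mul hfu).integrable_of_hasCompactSupport h2.mul_right
    · by_cases hx : x ∈ ball (0 : E) R
      · rw [indicator_of_mem hx, h4 x (le_of_lt (by simpa using hx)), one_mul]
      · rw [indicator_of_notMem hx]
        exact mul_nonneg (h3 x).1 (hf.nonneg _)
  have s2 : ∫ x, u x * lap χ x ≤ ∫ x, (ball (0 : E) (3 * R)).indicator
      (fun _ => C * (4 * R) * (3 * (C₁ / R ^ 2))) x := by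
    refine integral_mono ?_ ?_ fun x => ?_
    · refine (hs.smooth.continuous.mul (continuous_lap h1)).integrable_of_hasCompactSupport ?_
      have : HasCompactSupport (lap χ) := by
        refine HasCompactSupport.intro (isCompact_closedBall (0 : E) (2 * R)) fun x hx => ?_
        refine lap_zero_off h5 ?_
        have : ¬ ‖x‖ ≤ 2 * R := by simpa using hx
        exact not_le.1 this
      exact this.mul_left
    · rw [integrable_indicator_iff measurableSet_ball]
      exact integrableOn_const measure_ball_lt_top.ne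
    · by_cases hx : x ∈ ball (0 : E) (3 * R)
      · rw [indicator_of_mem hx]
        have hx' : ‖x‖ < 3 * R := by simpa using hx
        refine (le_abs_self _).trans ?_
        rw [abs_mul]
        refine mul_le_mul ((hu x).trans ?_) (abs_lap_le fun i j => h7 x i j) (abs_nonneg _)
          (by positivity)
        exact mul_le_mul_of_nonneg_left (by linarith) hC.le
      · rw [indicator_of_notMem hx]
        have hx' : 3 * R ≤ ‖x‖ := by simpa using hx
        simp only
        rw [lap_zero_off h5 (by linarith), mul_zero]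
  have s3 : ∫ x, (ball (0 : E) (3 * R)).indicator
      (fun _ => C * (4 * R) * (3 * (C₁ / R ^ 2))) x = (324 * C * C₁ * v1) * R ^ 2 := by
    rw [integral_indicator_const _ measurableSet_ball, vol_ball 0 (by positivity), smul_eq_mul]
    field_simp
    ring
  rw [← s3]
  exact s1.trans (g.le.trans s2)

/-- the function `w ∂_j Φ - Φ ∂_j w` -/
theorem pd_wronsk {w Φ : E → ℝ} (hw : ContDiff ℝ 2 w) (hΦ : ContDiff ℝ 2 Φ) (j : Fin 3) (x : E) :
    pd j (fun y => w y * pd j Φ y - Φ y * pd j w y) x =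
      w x * pd j (pd j Φ) x - Φ x * pd j (pd j w) x := by
  have dw := diff_of_two hw x
  have dΦ := diff_of_two hΦ x
  have dpw := diff_pd hw j x
  have dpΦ := diff_pd hΦ j x
  have d1 : DifferentiableAt ℝ (fun y => w y * pd j Φ y) x := dw.mul dpΦ
  have d2 : DifferentiableAt ℝ (fun y => Φ y * pd j w y) x := dΦ.mul dpw
  rw [pd_sub d1 d2, pd_mul dw dpΦ, pd_mul dΦ dpw]
  ring

theorem part2 (H : HPB_stmt) {f : ℝ → ℝ} {a A K : ℝ} {u : E → ℝ} {α β : ℝ} (hf : Nl f a A K)
    (hs : Sl f u) (hb : BD u α β) {C₁ R : ℝ}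
    (hC1 : 0 < C₁) (hR : 1 ≤ R) {χ : E → ℝ}
    (h1 : ContDiff ℝ 2 χ) (h2 : HasCompactSupport χ) (h3 : ∀ x, 0 ≤ χ x ∧ χ x ≤ 1)
    (h4 : ∀ x, ‖x‖ ≤ R → χ x = 1) (h5 : ∀ x, 2 * R ≤ ‖x‖ → χ x = 0)
    (h6 : ∀ x i, |pd i χ x| ≤ C₁ / R)
    (h7 : ∀ x i j, |pd j (pd i χ) x| ≤ C₁ / R ^ 2) :
    ∫ x in Hs 1 ∩ ball (0 : E) R, x 0 * f (u x) ≤
      11 * C₁ / R * ∫ x in Hs 1 ∩ ball (0 : E) (3 * R), (α * x 0 - u x) := by
  have hR0 : 0 < R := by linarith
  have hfu : Continuous fun x => f (u x) := hf.cont.comp hs.smooth.continuous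
  have hx0 : ContDiff ℝ 2 (fun x : E => x 0) := contDiff_coord 0
  set w : E → ℝ := fun x => α * x 0 - u x with hw
  set Φ : E → ℝ := fun x => χ x * x 0 with hΦ
  have cw : ContDiff ℝ 2 w := (contDiff_const.mul hx0).sub hs.smooth
  have cΦ : ContDiff ℝ 2 Φ := h1.mul hx0
  have sΦ : HasCompactSupport Φ := h2.mul_right
  -- the laplacians
  have lx0 : ∀ x : E, lap (fun y : E => y 0) x = 0 := fun x => by
    unfold lap
    refine Finset.sum_eq_zero fun i _ => ?_
    have e : pd i (fun y : E => y 0) = fun _ => if (0 : Fin 3) = i then (1 : ℝ) else 0 := by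
      funext y
      exact pd_coord i 0 y
    rw [e]
    simp
  have lw : ∀ x, lap w x = - f (u x) := fun x => by
    rw [hw, lap_sub (contDiff_const.mul hx0).contDiffAt hs.smooth.contDiffAt,
      lap_const_mul α hx0.contDiffAt, lx0, hs.eq]
    ring
  have lΦ : ∀ x, lap Φ x = x 0 * lap χ x + 2 * pd 0 χ x := fun x => by
    rw [hΦ, lap_mul h1.contDiffAt hx0.contDiffAt, lx0]
    have : gdot χ (fun y : E => y 0) x = pd 0 χ x := by
      unfold gdot
      rw [Fin.sum_univ_three, pd_coord, pd_coord, pd_coord]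
      simp
    rw [this]
    ring
  -- the functions
  have cφ : ∀ j, ContDiff ℝ 1 (fun y => w y * pd j Φ y - Φ y * pd j w y) := fun j =>
    ((cw.of_le (by norm_num)).mul (contDiff_one_pd cΦ)).sub
      ((cΦ.of_le (by norm_num)).mul (contDiff_one_pd cw))
  have sφ : ∀ j, HasCompactSupport (fun y => w y * pd j Φ y - Φ y * pd j w y) := fun j => by
    have e1 : HasCompactSupport (fun y => w y * pd j Φ y) := (hasCompactSupport_pd j sΦ).mul_left
    have e2 : HasCompactSupport (fun y => Φ y * pd j w y) := sΦ.mul_right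
    exact e1.sub e2
  have H0 : ∫ x in Hs 1, pd 0 (fun y => w y * pd 0 Φ y - Φ y * pd 0 w y) x ≤ 0 := by
    have := H.2 (fun y => w y * pd 0 Φ y - Φ y * pd 0 w y) (fun _ => 0) (cφ 0) (sφ 0)
      contDiff_const HasCompactSupport.zero (fun x hx => by
        have hu0 : u x ≤ 0 := hs.neg x hx.le
        have e1 : pd 0 Φ x = χ x := by
          rw [hΦ, pd_mul (diff_of_two h1 x) (diff_of_two hx0 x), pd_coord, hx]
          simp
        have e2 : Φ x = 0 := by simp [hΦ, hx]
        have e3 : w x = - u x := by simp [hw, hx]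
        rw [e1, e2, e3]
        nlinarith [(h3 x).1])
    simpa using this
  have Hj : ∀ j : Fin 3, j ≠ 0 →
      ∫ x in Hs 1, pd j (fun y => w y * pd j Φ y - Φ y * pd j w y) x = 0 := fun j hj =>
    H.1 1 j _ (Or.inl rfl) (cφ j) (sφ j) (Or.inl hj)
  have hI : ∀ j, IntegrableOn (fun x => pd j (fun y => w y * pd j Φ y - Φ y * pd j w y) x)
      (Hs 1) := fun j =>
    ((continuous_pd (cφ j)).integrable_of_hasCompactSupport
      (hasCompactSupport_pd j (sφ j))).integrableOn
  have Hsum : ∫ x in Hs 1, (w x * lap Φ x - Φ x * lap w x) ≤ 0 := by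
    have e : ∀ x, w x * lap Φ x - Φ x * lap w x =
        ∑ j, pd j (fun y => w y * pd j Φ y - Φ y * pd j w y) x := fun x => by
      simp_rw [pd_wronsk cw cΦ]
      unfold lap
      rw [Finset.sum_sub_distrib, Finset.mul_sum, Finset.mul_sum]
    simp_rw [e]
    rw [integral_finsetSum _ fun j _ => hI j, Fin.sum_univ_three, Hj 1 (by decide),
      Hj 2 (by decide)]
    linarith
  have i1 : IntegrableOn (fun x => w x * lap Φ x) (Hs 1) := by
    refine ((cw.continuous.mul (continuous_lap cΦ)).integrable_of_hasCompactSupport ?_).integrableOn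
    have : HasCompactSupport (lap Φ) := by
      refine HasCompactSupport.intro (isCompact_closedBall (0 : E) (2 * R)) fun x hx => ?_
      have : ¬ ‖x‖ ≤ 2 * R := by simpa using hx
      rw [lΦ, lap_zero_off h5 (not_le.1 this), pd_zero_off h5 (not_le.1 this)]
      ring
    exact this.mul_left
  have i2 : IntegrableOn (fun x => Φ x * f (u x)) (Hs 1) :=
    ((cΦ.continuous.mul hfu).integrable_of_hasCompactSupport sΦ.mul_right).integrableOn
  have key : ∫ x in Hs 1, Φ x * f (u x) ≤ ∫ x in Hs 1, - (w x * lap Φ x) := by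
    have e : ∀ x, w x * lap Φ x - Φ x * lap w x = w x * lap Φ x + Φ x * f (u x) := fun x => by
      rw [lw]; ring
    simp_rw [e] at Hsum
    rw [integral_add i1 i2] at Hsum
    rw [integral_neg]
    linarith
  have hHs : MeasurableSet (Hs 1) := measurableSet_Hs 1
  have s1 : ∫ x in Hs 1 ∩ ball (0 : E) R, x 0 * f (u x) ≤ ∫ x in Hs 1, Φ x * f (u x) := by
    rw [← integral_indicator (hHs.inter measurableSet_ball), ← integral_indicator hHs]
    refine integral_mono ?_ ?_ fun x => ?_
    · rw [integrable_indicator_iff (hHs.inter measurableSet_ball)]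
      exact integrableOn_Hs_ball (hx0.continuous.mul hfu) 1 R
    · rw [integrable_indicator_iff hHs]
      exact i2
    · by_cases hx : x ∈ Hs 1
      · rw [indicator_of_mem hx]
        have hx1 : 0 < x 0 := by simpa [Hs] using hx
        by_cases hx' : x ∈ ball (0 : E) R
        · rw [indicator_of_mem (show x ∈ Hs 1 ∩ ball (0 : E) R from ⟨hx, hx'⟩)]
          have : χ x = 1 := h4 x (le_of_lt (by simpa using hx'))
          simp only [hΦ, this, one_mul, le_refl]
        · rw [indicator_of_notMem fun h => hx' h.2]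
          exact mul_nonneg (mul_nonneg (h3 x).1 hx1.le) (hf.nonneg _)
      · rw [indicator_of_notMem hx, indicator_of_notMem fun h => hx h.1]
  have s2 : ∫ x in Hs 1, - (w x * lap Φ x) ≤
      11 * C₁ / R * ∫ x in Hs 1 ∩ ball (0 : E) (3 * R), (α * x 0 - u x) := by
    rw [← integral_const_mul, ← integral_indicator (hHs.inter measurableSet_ball),
      ← integral_indicator hHs]
    refine integral_mono ?_ ?_ fun x => ?_
    · rw [integrable_indicator_iff hHs]
      exact i1.neg
    · rw [integrable_indicator_iff (hHs.inter measurableSet_ball)]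
      exact integrableOn_Hs_ball (continuous_const.mul cw.continuous) 1 (3 * R)
    · by_cases hx : x ∈ Hs 1
      · rw [indicator_of_mem hx]
        have hx1 : 0 < x 0 := by simpa [Hs] using hx
        have hw0 : 0 ≤ w x := by
          have := hb.right x hx1.le
          simp only [hw]
          linarith
        by_cases hx' : x ∈ ball (0 : E) (3 * R)
        · rw [indicator_of_mem (show x ∈ Hs 1 ∩ ball (0 : E) (3 * R) from ⟨hx, hx'⟩)]
          have hx2 : ‖x‖ < 3 * R := by simpa using hx'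
          have hx3 : |x 0| ≤ 3 * R := (abs_coord_le x 0).trans hx2.le
          have hl : |lap Φ x| ≤ 11 * C₁ / R := by
            rw [lΦ]
            refine (abs_add_le _ _).trans ?_
            rw [abs_mul, abs_mul, abs_two]
            have a1 : |x 0| * |lap χ x| ≤ 3 * R * (3 * (C₁ / R ^ 2)) :=
              mul_le_mul hx3 (abs_lap_le fun i j => h7 x i j) (abs_nonneg _) (by positivity)
            have a2 := h6 x 0
            have a3 : 3 * R * (3 * (C₁ / R ^ 2)) + 2 * (C₁ / R) = 11 * C₁ / R := by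
              field_simp
              ring
            linarith
          have := neg_le_of_abs_le hl
          have h9 : -(w x * lap Φ x) = w x * (- lap Φ x) := by ring
          simp only
          rw [h9, mul_comm (11 * C₁ / R)]
          exact mul_le_mul_of_nonneg_left (by linarith) hw0
        · rw [indicator_of_notMem fun h => hx' h.2]
          have hx2 : 3 * R ≤ ‖x‖ := by simpa using hx'
          simp only
          rw [lΦ, lap_zero_off h5 (by linarith), pd_zero_off h5 (by linarith)]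
          simp
      · rw [indicator_of_notMem hx, indicator_of_notMem fun h => hx h.1]
  exact s1.trans (key.trans s2)

theorem proof : CUT_stmt → HPB_stmt → FLX_stmt := by
  intro hcut H f a A K u α β hf hs hb
  obtain ⟨C₁, hC1, hχ⟩ := hcut
  refine ⟨?_, fun ε hε => ?_⟩
  · obtain ⟨C, hC, hu⟩ := hb.bdd
    refine ⟨324 * C * C₁ * v1, by have := v1_pos; positivity, fun R hR => ?_⟩
    obtain ⟨χ, h1, h2, h3, h4, h5, _, h7⟩ := hχ R (by linarith)
    exact part1 hf hs hC hu hC1 hR h1 h2 h3 h4 h5 h7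
  · obtain ⟨R₀, hR₀⟩ := hb.limr (ε / (891 * C₁)) (by positivity)
    refine ⟨max 1 R₀, fun R hR => ?_⟩
    have hR1 : 1 ≤ R := (le_max_left _ _).trans hR
    have hR2 : R₀ ≤ R := (le_max_right _ _).trans hR
    have hR0 : 0 < R := by linarith
    obtain ⟨χ, h1, h2, h3, h4, h5, h6, h7⟩ := hχ R (by linarith)
    refine (part2 H hf hs hb hC1 hR1 h1 h2 h3 h4 h5 h6 h7).trans ?_
    have h8 := hR₀ (3 * R) (by linarith)
    refine (mul_le_mul_of_nonneg_left h8 (by positivity)).trans (le_of_eq ?_)
    field_simp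
    ring

end Pool.Agent.Helper9.HS3.FLX
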